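import Pool.Agent.Q210.SM.Sign

set_option autoImplicit false

/-! # The graphs `gp ρ` -/

namespace Pool.Agent.Q210.SM

open Finset

/-- The vertices: signed subsets of `Fin r`, the elements of `Fin r`, and leaves. -/
inductive Vx (r p : ℕ) : Type
  | s (S : Finset (Fin r)) (ε : ZMod 2)
  | x (i : Fin r)
  | l (j a : Fin r)
  | t (a : Fin (r + 1))
  | b (a : Fin (r + 2 + p))

variable {r p : ℕ}

/-- The vertices as a sum of types. -/
def vxEquiv (r p : ℕ) : Vx r p ≃
    (Finset (Fin r) × ZMod 2) ⊕ Fin r ⊕ (Fin r × Fin r) ⊕ Fin (r + 1) ⊕ Fin (r + 2 + p) where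
  toFun
    | Vx.s S ε => Sum.inl (S, ε)
    | Vx.x i => Sum.inr (Sum.inl i)
    | Vx.l j a => Sum.inr (Sum.inr (Sum.inl (j, a)))
    | Vx.t a => Sum.inr (Sum.inr (Sum.inr (Sum.inl a)))
    | Vx.b a => Sum.inr (Sum.inr (Sum.inr (Sum.inr a)))
  invFun
    | Sum.inl (S, ε) => Vx.s S ε
    | Sum.inr (Sum.inl i) => Vx.x i
    | Sum.inr (Sum.inr (Sum.inl (j, a))) => Vx.l j a
    | Sum.inr (Sum.inr (Sum.inr (Sum.inl a))) => Vx.t a
    | Sum.inr (Sum.inr (Sum.inr (Sum.inr a))) => Vx.b a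
  left_inv v := by cases v <;> rfl
  right_inv v := by
    rcases v with ⟨S, ε⟩ | i | ⟨j, a⟩ | a | a <;> rfl

instance : Fintype (Vx r p) := Fintype.ofEquiv _ (vxEquiv r p).symm

theorem card_Vx (r p : ℕ) : Fintype.card (Vx r p) =
    2 ^ r * 2 + (r + (r * r + ((r + 1) + (r + 2 + p)))) := by
  rw [Fintype.card_congr (vxEquiv r p)]
  simp [Fintype.card_sum, Fintype.card_prod, ZMod.card]

/-- One direction of the adjacency. -/
def rel (ρ : Equiv.Perm (Fin r)) : Vx r p → Vx r p → Prop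
  | Vx.s S ε, Vx.s T δ => ∃ i, i ∉ S ∧ T = insert i S ∧ δ = ε + up S i
  | Vx.s S _, Vx.x i => i ∈ S
  | Vx.s S ε, Vx.t _ => S = Finset.univ ∧ ε = 0
  | Vx.s S ε, Vx.b _ => S = ∅ ∧ ε = 0
  | Vx.x i, Vx.l j a => ρ j = i ∧ a ≤ j
  | _, _ => False

theorem rel_irrefl (ρ : Equiv.Perm (Fin r)) (v : Vx r p) : ¬ rel ρ v v := by
  cases v with
  | s S ε =>
    rintro ⟨i, hi, h, _⟩
    apply hi
    rw [h]
    exact Finset.mem_insert_self _ _
  | x i => exact id
  | l j a => exact id
  | t a => exact id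
  | b a => exact id

/-- The graph `gp ρ`. -/
def gp (ρ : Equiv.Perm (Fin r)) : SimpleGraph (Vx r p) where
  Adj u v := rel ρ u v ∨ rel ρ v u
  symm := ⟨fun _ _ h => h.symm⟩
  loopless := ⟨fun v h => rel_irrefl ρ v (h.elim id id)⟩

/-- The action of an even permutation. -/
def am (π : Equiv.Perm (Fin r)) : Vx r p → Vx r p
  | Vx.s S ε => Vx.s (S.map π.toEmbedding) (ε + inv π S)
  | Vx.x i => Vx.x (π i)
  | Vx.l j a => Vx.l j a
  | Vx.t a => Vx.t a
  | Vx.b a => Vx.b a

theorem inv_one' (S : Finset (Fin r)) : inv (1 : Equiv.Perm (Fin r)) S = 0 := by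
  unfold inv
  apply Finset.sum_eq_zero
  intro a _
  apply Finset.sum_eq_zero
  intro b _
  rw [if_neg]
  rintro ⟨h1, h2⟩
  exact lt_asymm h1 h2

theorem am_comp (π σ : Equiv.Perm (Fin r)) (v : Vx r p) : am π (am σ v) = am (π * σ) v := by
  cases v with
  | s S ε =>
    show Vx.s ((S.map σ.toEmbedding).map π.toEmbedding) (ε + inv σ S + inv π (S.map _)) =
      Vx.s (S.map (π * σ).toEmbedding) (ε + inv (π * σ) S)
    rw [inv_mul, Finset.map_map, add_assoc]
    rfl
  | x i => rfl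
  | l j a => rfl
  | t a => rfl
  | b a => rfl

theorem am_one (v : Vx r p) : am 1 v = v := by
  cases v with
  | s S ε =>
    show Vx.s (S.map (1 : Equiv.Perm (Fin r)).toEmbedding) (ε + inv 1 S) = Vx.s S ε
    rw [inv_one', add_zero]
    show Vx.s (S.map (Function.Embedding.refl _)) ε = Vx.s S ε
    rw [Finset.map_refl]
  | x i => rfl
  | l j a => rfl
  | t a => rfl
  | b a => rfl

/-- The action as a bijection. -/
def ame (π : Equiv.Perm (Fin r)) : Vx r p ≃ Vx r p where
  toFun := am π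
  invFun := am π⁻¹
  left_inv v := by rw [am_comp, inv_mul_cancel, am_one]
  right_inv v := by rw [am_comp, mul_inv_cancel, am_one]

theorem rel_am (π ρ : Equiv.Perm (Fin r)) (hπ : inv π Finset.univ = 0) (u v : Vx r p)
    (h : rel ρ u v) : rel (π * ρ) (am π u) (am π v) := by
  cases u with
  | s S ε =>
    cases v with
    | s T δ =>
      obtain ⟨i, hi, rfl, rfl⟩ := h
      refine ⟨π i, ?_, ?_, ?_⟩
      · rw [Finset.mem_map]
        rintro ⟨a, ha, h⟩
        exact hi (π.injective h ▸ ha)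
      · rw [Finset.map_insert]
        rfl
      · rw [inv_insert _ _ _ hi]
        have := two_mul_z (up S i)
        linear_combination this
    | x i =>
      exact Finset.mem_map_of_mem _ h
    | l j a => exact h.elim
    | t a =>
      obtain ⟨rfl, rfl⟩ := h
      refine ⟨Finset.map_univ_equiv π, ?_⟩
      rw [hπ, add_zero]
    | b a =>
      obtain ⟨rfl, rfl⟩ := h
      refine ⟨Finset.map_empty _, ?_⟩
      rw [inv_empty, add_zero]
  | x i =>
    cases v with
    | s T δ => exact h.elim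
    | x i => exact h.elim
    | l j a =>
      obtain ⟨rfl, h2⟩ := h
      exact ⟨rfl, h2⟩
    | t a => exact h.elim
    | b a => exact h.elim
  | l j a => cases v <;> exact h.elim
  | t a => cases v <;> exact h.elim
  | b a => cases v <;> exact h.elim

/-- Multiplication by an even permutation gives an isomorphic graph. -/
theorem gp_iso (h1 : 1 < r) (π ρ : Equiv.Perm (Fin r)) (hπ : Equiv.Perm.sign π = 1) :
    Nonempty ((gp ρ : SimpleGraph (Vx r p)) ≃g (gp (π * ρ) : SimpleGraph (Vx r p))) := by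
  have hi : inv π Finset.univ = 0 := (inv_eq_zero_iff h1 π).2 hπ
  have hi' : inv π⁻¹ Finset.univ = 0 := (inv_eq_zero_iff h1 _).2 (by
    rw [Equiv.Perm.sign_inv, hπ])
  have key : ∀ u v : Vx r p, rel ρ u v ↔ rel (π * ρ) (am π u) (am π v) := by
    intro u v
    constructor
    · exact rel_am π ρ hi u v
    · intro h
      have := rel_am π⁻¹ (π * ρ) hi' _ _ h
      rw [am_comp, am_comp, inv_mul_cancel, am_one, am_one, ← mul_assoc, inv_mul_cancel,
        one_mul] at this
      exact this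
  refine ⟨⟨ame π, ?_⟩⟩
  intro u v
  show (rel (π * ρ) (am π u) (am π v) ∨ rel (π * ρ) (am π v) (am π u)) ↔ (rel ρ u v ∨ rel ρ v u)
  rw [← key, ← key]

end Pool.Agent.Q210.SM
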