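import Pool.Agent.Q210.SM.Stat

set_option autoImplicit false

/-! # Nonisomorphic graphs with the same statistics of partitions into `k` parts -/

namespace Pool.Agent.Q210.SM

open Finset

variable {r p k : ℕ}

/-- Two families with fibres of the same size. -/
theorem exists_equiv_of_fibers {A B S : Type} [Finite A] [Finite B] (m : A → S) (m' : B → S)
    (h : ∀ s, Nat.card {a // m a = s} = Nat.card {b // m' b = s}) :
    ∃ Φ : A ≃ B, ∀ a, m' (Φ a) = m a := by
  classical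
  have h1 : ∀ s, Nonempty ({a // m a = s} ≃ {b // m' b = s}) := fun s =>
    Finite.card_eq.1 (h s)
  let e : ∀ s, {a // m a = s} ≃ {b // m' b = s} := fun s => (h1 s).some
  let Φ : A ≃ B := (Equiv.sigmaFiberEquiv m).symm.trans
    ((Equiv.sigmaCongrRight e).trans (Equiv.sigmaFiberEquiv m'))
  exact ⟨Φ, fun a => (e (m a) ⟨a, rfl⟩).2⟩

open Classical in
/-- The number of partitions with given statistics. -/
noncomputable def cn {V : Type} [Fintype V] [DecidableEq V] (k : ℕ) (G : SimpleGraph V)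
    (s : (Fin k → ℕ) × (Sym2 (Fin k) → ℕ) × (Sym2 (Fin k) → ℕ)) : ℤ :=
  ∑ f : V → Fin k, if st G f = s then 1 else 0

theorem cn_iso {V W : Type} [Fintype V] [DecidableEq V] [Fintype W] [DecidableEq W]
    {G : SimpleGraph V} {H : SimpleGraph W} (φ : G ≃g H)
    (s : (Fin k → ℕ) × (Sym2 (Fin k) → ℕ) × (Sym2 (Fin k) → ℕ)) : cn k G s = cn k H s := by
  unfold cn
  symm
  refine Fintype.sum_equiv (Equiv.arrowCongr φ.symm.toEquiv (Equiv.refl _)) _ _ ?_
  intro f
  have : (Equiv.arrowCongr φ.symm.toEquiv (Equiv.refl (Fin k))) f = f ∘ φ := by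
    funext v
    rfl
  rw [this, st_iso φ f]

instance : DecidableEq (Vx r p) := (vxEquiv r p).decidableEq

/-- An alternating sum over the permutations vanishes if two values may be exchanged. -/
theorem alt_sum {a b : Fin r} (hab : a ≠ b) (F : Equiv.Perm (Fin r) → ℤ)
    (hF : ∀ ρ, F (Equiv.swap a b * ρ) = F ρ) :
    ∑ ρ : Equiv.Perm (Fin r), (Equiv.Perm.sign ρ : ℤ) * F ρ = 0 := by
  refine Finset.sum_involution (fun ρ _ => Equiv.swap a b * ρ) ?_ ?_ ?_ ?_
  · intro ρ _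
    rw [hF, Equiv.Perm.sign_mul, Equiv.Perm.sign_swap hab]
    push_cast
    ring
  · intro ρ _ _ h
    have h1 : Equiv.swap a b = 1 := by
      have := congrArg (fun z => z * ρ⁻¹) h
      simpa [mul_assoc] using this
    have h2 := congrArg (fun z : Equiv.Perm (Fin r) => z a) h1
    simp only [Equiv.swap_apply_left, Equiv.Perm.one_apply] at h2
    exact hab h2.symm
  · intro ρ _
    exact Finset.mem_univ _
  · intro ρ _
    rw [← mul_assoc, Equiv.swap_mul_self, one_mul]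

theorem cn_eq (hkr : k < r) (h1 : 1 < r)
    (s : (Fin k → ℕ) × (Sym2 (Fin k) → ℕ) × (Sym2 (Fin k) → ℕ)) :
    cn k (gp 1 : SimpleGraph (Vx r p)) s =
      cn k (gp (Equiv.swap (⟨0, by omega⟩ : Fin r) ⟨1, h1⟩) : SimpleGraph (Vx r p)) s := by
  classical
  set σ : Equiv.Perm (Fin r) := Equiv.swap (⟨0, by omega⟩ : Fin r) ⟨1, h1⟩ with hσ
  have h01 : (⟨0, by omega⟩ : Fin r) ≠ ⟨1, h1⟩ := by
    simp [Fin.ext_iff]
  have hsσ : Equiv.Perm.sign σ = -1 := Equiv.Perm.sign_swap h01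
  -- the alternating sum
  have hz : ∑ ρ : Equiv.Perm (Fin r), (Equiv.Perm.sign ρ : ℤ) *
      cn k (gp ρ : SimpleGraph (Vx r p)) s = 0 := by
    unfold cn
    simp only [Finset.mul_sum]
    rw [Finset.sum_comm]
    apply Finset.sum_eq_zero
    intro f _
    obtain ⟨a, b, hab, hf⟩ := Fintype.exists_ne_map_eq_of_card_lt
      (fun i : Fin r => f (Vx.x i)) (by simpa using hkr)
    apply alt_sum hab (fun ρ => if st (gp ρ : SimpleGraph (Vx r p)) f = s then 1 else 0)
    intro ρ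
    simp only [st_swap ρ f hf]
  have hsign : ∑ ρ : Equiv.Perm (Fin r), (Equiv.Perm.sign ρ : ℤ) * 1 = 0 :=
    alt_sum h01 (fun _ => 1) (fun _ => rfl)
  have hval : ∀ ρ : Equiv.Perm (Fin r), cn k (gp ρ : SimpleGraph (Vx r p)) s =
      if Equiv.Perm.sign ρ = 1 then cn k (gp 1 : SimpleGraph (Vx r p)) s
      else cn k (gp σ : SimpleGraph (Vx r p)) s := by
    intro ρ
    split_ifs with h
    · obtain ⟨φ⟩ := gp_iso (p := p) h1 ρ 1 h
      rw [mul_one] at φ
      exact (cn_iso φ s).symm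
    · have h2 : Equiv.Perm.sign ρ = -1 := (Int.units_eq_one_or _).resolve_left h
      have h3 : Equiv.Perm.sign (ρ * σ⁻¹) = 1 := by
        rw [Equiv.Perm.sign_mul, Equiv.Perm.sign_inv, h2, hsσ]
        norm_num
      obtain ⟨φ⟩ := gp_iso (p := p) h1 (ρ * σ⁻¹) σ h3
      rw [inv_mul_cancel_right] at φ
      exact (cn_iso φ s).symm
  set A := cn k (gp 1 : SimpleGraph (Vx r p)) s with hA
  set B := cn k (gp σ : SimpleGraph (Vx r p)) s with hB
  have h4 : ∑ ρ : Equiv.Perm (Fin r), (if Equiv.Perm.sign ρ = 1 then A - B else 0) = 0 := by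
    have h5 : ∀ ρ : Equiv.Perm (Fin r), (if Equiv.Perm.sign ρ = 1 then A - B else 0) =
        (Equiv.Perm.sign ρ : ℤ) * cn k (gp ρ : SimpleGraph (Vx r p)) s -
          B * ((Equiv.Perm.sign ρ : ℤ) * 1) := by
      intro ρ
      rw [hval]
      rcases Int.units_eq_one_or (Equiv.Perm.sign ρ) with h | h
      · rw [h]
        simp
      · rw [h]
        simp
    simp only [h5]
    rw [Finset.sum_sub_distrib, ← Finset.mul_sum, hz, hsign]
    ring
  rw [← Finset.sum_filter, Finset.sum_const] at h4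
  have h6 : (Finset.univ.filter (fun ρ : Equiv.Perm (Fin r) => Equiv.Perm.sign ρ = 1)).card ≠ 0 := by
    rw [Finset.card_ne_zero]
    exact ⟨1, by simp⟩
  rw [nsmul_eq_mul] at h4
  rcases mul_eq_zero.1 h4 with h7 | h7
  · exact absurd (by exact_mod_cast h7) h6
  · linarith

theorem card_eq_cn {V : Type} [Fintype V] [DecidableEq V] (G : SimpleGraph V)
    (s : (Fin k → ℕ) × (Sym2 (Fin k) → ℕ) × (Sym2 (Fin k) → ℕ)) :
    (Nat.card {f : V → Fin k // st G f = s} : ℤ) = cn k G s := by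
  classical
  unfold cn
  rw [Finset.sum_boole, Nat.card_eq_fintype_card, Fintype.card_subtype]

theorem exists_pair (hk : 1 ≤ k) (n : ℕ) (hn : 2 ^ (k + 4) ≤ n) :
    ∃ G H : SimpleGraph (Fin n), ¬ Nonempty (G ≃g H) ∧
      ∃ Φ : Equiv.Perm (Fin n → Fin k), ∀ f, st H (Φ f) = st G f := by
  classical
  obtain ⟨r, hr⟩ : ∃ r, r = k + 1 := ⟨_, rfl⟩
  have h1 : 1 < r := by omega
  have hbase : 2 ^ r * 2 + (r + (r * r + ((r + 1) + (r + 2)))) ≤ n := by
    refine le_trans ?_ hn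
    have h2 : ∀ m : ℕ, 1 ≤ m → (m + 1) * (m + 1) + 3 * (m + 1) + 3 ≤ 6 * 2 ^ (m + 1) := by
      intro m hm
      induction m, hm using Nat.le_induction with
      | base => norm_num
      | succ m hm ih =>
        rw [pow_succ]
        nlinarith
    have h3 := h2 k hk
    have h4 : 2 ^ (k + 4) = 8 * 2 ^ (k + 1) := by
      rw [show k + 4 = (k + 1) + 3 by omega, pow_add]
      ring
    rw [h4, hr]
    nlinarith
  obtain ⟨p, hp⟩ : ∃ p, n = 2 ^ r * 2 + (r + (r * r + ((r + 1) + (r + 2 + p)))) :=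
    ⟨n - (2 ^ r * 2 + (r + (r * r + ((r + 1) + (r + 2))))), by omega⟩
  have hcard : Fintype.card (Vx r p) = Fintype.card (Fin n) := by
    rw [card_Vx, Fintype.card_fin, hp]
  let e : Vx r p ≃ Fin n := Fintype.equivOfCardEq hcard
  set σ : Equiv.Perm (Fin r) := Equiv.swap (⟨0, by omega⟩ : Fin r) ⟨1, h1⟩ with hσ
  let G : SimpleGraph (Fin n) := (gp 1 : SimpleGraph (Vx r p)).map e.toEmbedding
  let H : SimpleGraph (Fin n) := (gp σ : SimpleGraph (Vx r p)).map e.toEmbedding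
  let φG : (gp 1 : SimpleGraph (Vx r p)) ≃g G := SimpleGraph.Iso.map e _
  let φH : (gp σ : SimpleGraph (Vx r p)) ≃g H := SimpleGraph.Iso.map e _
  refine ⟨G, H, ?_, ?_⟩
  · rintro ⟨ψ⟩
    exact noniso h1 σ (inv_swap h1 (by omega)) ((φG.trans ψ).trans φH.symm)
  · have hfib : ∀ s, Nat.card {f : Fin n → Fin k // st G f = s} =
        Nat.card {f : Fin n → Fin k // st H f = s} := by
      intro s
      have h2 : ((Nat.card {f : Fin n → Fin k // st G f = s} : ℕ) : ℤ) =
          ((Nat.card {f : Fin n → Fin k // st H f = s} : ℕ) : ℤ) := by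
        rw [card_eq_cn, card_eq_cn, ← cn_iso φG, ← cn_iso φH]
        exact cn_eq (by omega) h1 s
      exact_mod_cast h2
    obtain ⟨Φ, hΦ⟩ := exists_equiv_of_fibers (fun f : Fin n → Fin k => st G f)
      (fun f : Fin n → Fin k => st H f) hfib
    exact ⟨Φ, hΦ⟩

theorem main (k n : ℕ) (hk : 1 ≤ k) (hn : 2 ^ (k + 4) ≤ n) :
    ∃ G H : SimpleGraph (Fin n), ¬ Nonempty (G ≃g H) ∧
      (∃ Φ : Equiv.Perm (Fin n → Fin k), ∀ f : Fin n → Fin k,
        (∀ i, size (Φ f) i = size f i) ∧ ∀ q, edgesIn H (Φ f) q = edgesIn G f q) ∧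
      ∀ (R : Type) [CommSemiring R] (α : Fin k → R) (β γ : Sym2 (Fin k) → R),
        partitionFunction G α β γ = partitionFunction H α β γ := by
  obtain ⟨G, H, h1, Φ, hΦ⟩ := exists_pair hk n hn
  refine ⟨G, H, h1, ⟨Φ, fun f => ⟨fun i => ?_, fun q => ?_⟩⟩, ?_⟩
  · exact congrFun (congrArg (fun s => s.1) (hΦ f)) i
  · exact congrFun (congrArg (fun s => s.2.1) (hΦ f)) q
  · intro R _ α β γ
    rw [partitionFunction_eq, partitionFunction_eq]
    refine Fintype.sum_equiv Φ _ _ ?_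
    intro f
    rw [hΦ]

end Pool.Agent.Q210.SM
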