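import Pool.Agent.Q120.SM.Stm
import Pool.Agent.Q120.MF.Dim

/-!
# Project SM of helper120, job D2: lower bounds for the dimensions from bad positions everywhere
-/

set_option autoImplicit false

namespace Pool.Agent.Q210.SM

open Finset MeasureTheory Filter Topology
open Pool.Agent Pool.Agent.Q120.SM
open scoped ENNReal NNReal

/-- The lower bound for the dimension along a rapidly increasing sequence of scales. -/
theorem le_dimH_of_thick {B : ℕ → Set ℕ} {y : ℕ → ℝ} {θ ε : ℝ} (hθ0 : 0 < θ) (hε : 0 < ε)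
    (hθε : θ + ε < 1) (hy1 : ∀ k, 1 ≤ y k) (hy0 : 16 ≤ y 0 ^ ε) (hys : ∀ k, 32 * y k ≤ y (k + 1) ^ ε)
    (hH : ∀ k, Thick (B k) (y k) θ) :
    ENNReal.ofReal (1 - θ - ε) ≤ dimH {α : ℝ | 1 ≤ α ∧ α ≤ 2 ∧ ∀ k, ⌊α * y k⌋₊ ∈ B k} := by
  have hypos : ∀ k, 0 < y k := fun k => by linarith [hy1 k]
  obtain ⟨ℓ, hℓ⟩ : ∃ ℓ : ℕ → ℝ, ℓ = fun k => Nat.casesOn k 1 (fun k => 1 / (2 * y k)) := ⟨_, rfl⟩
  have hℓ0 : ℓ 0 = 1 := by rw [hℓ]; rfl
  have hℓs : ∀ k, ℓ (k + 1) = 1 / (2 * y k) := fun k => by rw [hℓ]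
  have hℓpos : ∀ k, 0 < ℓ k := by
    intro k
    rcases k with _ | k
    · rw [hℓ0]; norm_num
    · rw [hℓs]; have := hypos k; positivity
  obtain ⟨Δ, hΔ⟩ : ∃ Δ : ℕ → ℝ, Δ = fun k => 4 * y k ^ (θ - 1) := ⟨_, rfl⟩
  have hΔk : ∀ k, Δ k = 4 * y k ^ (θ - 1) := fun k => by rw [hΔ]
  have hΔpos : ∀ k, 0 < Δ k := fun k => by
    rw [hΔk]; have := Real.rpow_pos_of_pos (hypos k) (θ - 1); positivity
  obtain ⟨t, ht⟩ : ∃ t : ℕ → ℝ, t = fun k => ℓ k / (2 * Δ k) := ⟨_, rfl⟩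
  have htk : ∀ k, t k = ℓ k / (2 * Δ k) := fun k => by rw [ht]
  obtain ⟨T, hT⟩ : ∃ T : ℕ → ℕ, T = fun k => ⌊t k⌋₊ := ⟨_, rfl⟩
  have hTk : ∀ k, T k = ⌊t k⌋₊ := fun k => by rw [hT]
  have hs0 : 0 < 1 - θ - ε := by linarith
  -- `t k ≥ 2 y_k^s`
  have hkey : ∀ k, 2 * y k ^ (1 - θ - ε) ≤ t k := by
    intro k
    have hyk := hypos k
    have h1 : 16 * y k ^ (-ε) ≤ ℓ k := by
      rcases k with _ | k
      · rw [hℓ0, Real.rpow_neg (hypos 0).le]
        rw [← div_eq_mul_inv, div_le_one (Real.rpow_pos_of_pos (hypos 0) _)]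
        exact hy0
      · rw [hℓs, Real.rpow_neg (hypos (k + 1)).le, ← div_eq_mul_inv,
          div_le_div_iff₀ (Real.rpow_pos_of_pos (hypos (k + 1)) _) (by have := hypos k; positivity)]
        have := hys k
        linarith
    rw [htk, hΔk, le_div_iff₀ (by
      have := Real.rpow_pos_of_pos hyk (θ - 1); positivity)]
    have h2 : 2 * y k ^ (1 - θ - ε) * (2 * (4 * y k ^ (θ - 1))) = 16 * y k ^ (-ε) := by
      have h3 : y k ^ (1 - θ - ε) * y k ^ (θ - 1) = y k ^ (-ε) := by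
        rw [← Real.rpow_add hyk]; congr 1; ring
      calc _ = 16 * (y k ^ (1 - θ - ε) * y k ^ (θ - 1)) := by ring
        _ = _ := by rw [h3]
    rw [h2]
    exact h1
  have hone : ∀ k, 1 ≤ y k ^ (1 - θ - ε) := fun k => Real.one_le_rpow (hy1 k) hs0.le
  have ht1 : ∀ k, 2 ≤ t k := fun k => by linarith [hkey k, hone k]
  have hThalf : ∀ k, t k / 2 ≤ T k := by
    intro k
    have h1 := Nat.lt_floor_add_one (t k)
    rw [hTk]
    linarith [ht1 k]
  have hTle : ∀ k, (T k : ℝ) ≤ t k := fun k => by rw [hTk]; exact Nat.floor_le (by linarith [ht1 k])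
  have hTone : ∀ k, (1 : ℝ) ≤ T k := fun k => by linarith [hThalf k, ht1 k]
  have hyt : Tendsto y atTop atTop := by
    have hgrow : ∀ k : ℕ, (16 : ℝ) ^ k ≤ y k := by
      intro k
      induction k with
      | zero => simpa using hy1 0
      | succ k ih =>
        have h1 := hys k
        have h2 : y (k + 1) ^ ε ≤ y (k + 1) ^ (1 : ℝ) :=
          Real.rpow_le_rpow_of_exponent_le (hy1 _) (by linarith)
        rw [Real.rpow_one] at h2
        rw [pow_succ]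
        linarith [hypos k]
    exact tendsto_atTop_mono hgrow (tendsto_pow_atTop_atTop_of_one_lt (by norm_num))
  have hres := Q273.CG.le_dimH_all (a := 1) (b := 2) (c := 1 / 2) (s := (1 - θ - ε).toNNReal)
    (by rw [Real.toNNReal_pos]; exact hs0) (by rw [Real.coe_toNNReal _ hs0.le]; linarith) (by norm_num)
    ℓ Δ T (fun k => {α : ℝ | ⌊α * y k⌋₊ ∈ B k}) hℓpos
    (by
      rw [← tendsto_add_atTop_iff_nat 1]
      simp_rw [hℓs]
      exact tendsto_const_nhds.div_atTop (hyt.const_mul_atTop two_pos))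
    (by rw [hℓ0]; norm_num) hΔpos
    (by
      intro k
      have h1 := hTle k
      rw [htk, le_div_iff₀ (by have := hΔpos k; positivity)] at h1
      linarith)
    (by
      intro k
      have h1 := hThalf k
      rw [htk] at h1
      have h2 := hΔpos k
      have h3 : ℓ k / (2 * Δ k) / 2 = ℓ k / (4 * Δ k) := by field_simp; norm_num
      rw [h3, div_le_iff₀ (by positivity)] at h1
      have h4 := hℓpos k
      have h5 := hTone k
      nlinarith)
    (by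
      intro k
      rw [Real.coe_toNNReal _ hs0.le]
      rcases k with _ | k
      · rw [hℓ0]; norm_num
      · rw [hℓs, prod_range_succ]
        have h1 : (1 : ℝ) ≤ ∏ i ∈ range k, (T i : ℝ) := by
          have := Finset.prod_le_prod (s := range k) (f := fun _ => (1 : ℝ)) (g := fun i => (T i : ℝ))
            (fun _ _ => zero_le_one) (fun i _ => hTone i)
          simpa using this
        have h2 : (1 / (2 * y k)) ^ (-(1 - θ - ε)) = (2 : ℝ) ^ (1 - θ - ε) * y k ^ (1 - θ - ε) := by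
          rw [one_div, Real.inv_rpow (by have := hypos k; positivity), ← Real.rpow_neg
            (by have := hypos k; positivity), neg_neg, Real.mul_rpow (by norm_num) (hypos k).le]
        have h22 : (2 : ℝ) ^ (1 - θ - ε) ≤ 2 := by
          have := Real.rpow_le_rpow_of_exponent_le (x := (2 : ℝ)) (by norm_num)
            (show 1 - θ - ε ≤ 1 by linarith)
          rwa [Real.rpow_one] at this
        rw [h2]
        have h3 : y k ^ (1 - θ - ε) ≤ T k := by linarith [hkey k, hThalf k]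
        have h4 := hTone k
        have h5 : 1 / 2 * ((2 : ℝ) ^ (1 - θ - ε) * y k ^ (1 - θ - ε)) ≤ y k ^ (1 - θ - ε) := by
          have h6 := hone k
          nlinarith
        nlinarith)
    (by
      intro k w hw1 hw2
      rw [hΔk] at hw2
      obtain ⟨m, hm0, hm1, hm2⟩ := hH k w hw1 hw2
      have hyk := hypos k
      have hl : ℓ (k + 1) = (1 / 2) / y k := by rw [hℓs]; field_simp
      refine ⟨m / y k, ?_, ?_, ?_⟩
      · rw [le_div_iff₀ hyk]; exact hm1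
      · rw [hl, hΔk, ← add_div, div_le_iff₀ hyk]; linarith
      · rintro α ⟨hα1, hα2⟩
        rw [hl, ← add_div] at hα2
        rw [div_le_iff₀ hyk] at hα1
        rw [le_div_iff₀ hyk] at hα2
        have hfl : ⌊α * y k⌋₊ = m := by
          rw [Nat.floor_eq_iff (le_trans (Nat.cast_nonneg m) hα1)]
          exact ⟨hα1, by linarith⟩
        show ⌊α * y k⌋₊ ∈ B k
        rw [hfl]
        exact hm0)
  refine le_trans ?_ hres
  rfl

theorem exists_subseq {x : ℕ → ℝ} (hxt : Tendsto x atTop atTop) {ε : ℝ} (hε : 0 < ε) (n0 : ℕ) :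
    ∃ φ : ℕ → ℕ, StrictMono φ ∧ (∀ k, n0 ≤ φ k) ∧ (∀ k, 1 ≤ x (φ k)) ∧ 16 ≤ x (φ 0) ^ ε ∧
      ∀ k, 32 * x (φ k) ≤ x (φ (k + 1)) ^ ε := by
  have hxε : Tendsto (fun n => x n ^ ε) atTop atTop := (tendsto_rpow_atTop hε).comp hxt
  have h1 : ∀ (N : ℕ) (R : ℝ), ∃ n, N < n ∧ 1 ≤ x n ∧ R ≤ x n ^ ε := by
    intro N R
    obtain ⟨n, hn1, hn2, hn3⟩ := ((eventually_gt_atTop N).and ((hxt.eventually_ge_atTop 1).and
      (hxε.eventually_ge_atTop R))).exists
    exact ⟨n, hn1, hn2, hn3⟩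
  choose g hg1 hg2 hg3 using h1
  obtain ⟨φ, hφ⟩ : ∃ φ : ℕ → ℕ, φ = fun k => Nat.rec (g n0 16) (fun _ n => g n (32 * x n)) k := ⟨_, rfl⟩
  have hφ0 : φ 0 = g n0 16 := by rw [hφ]; rfl
  have hφs : ∀ k, φ (k + 1) = g (φ k) (32 * x (φ k)) := fun k => by rw [hφ]
  have hmono : StrictMono φ := strictMono_nat_of_lt_succ (fun k => by rw [hφs]; exact hg1 _ _)
  refine ⟨φ, hmono, ?_, ?_, ?_, ?_⟩
  · intro k
    have h2 : n0 < φ 0 := by rw [hφ0]; exact hg1 _ _
    have := hmono.monotone (Nat.zero_le k)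
    omega
  · intro k
    rcases k with _ | k
    · rw [hφ0]; exact hg2 _ _
    · rw [hφs]; exact hg2 _ _
  · rw [hφ0]; exact hg3 _ _
  · intro k
    rw [hφs]; exact hg3 _ _

theorem le_dimH_LS {B : ℕ → Set ℕ} {x : ℕ → ℝ} (hxt : Tendsto x atTop atTop) {θ ε : ℝ} (hθ : 0 < θ)
    (hε : 0 < ε) (hθε : θ + ε < 1) (hH : ∀ᶠ n in atTop, Thick (B n) (x n) θ) :
    ENNReal.ofReal (1 - θ - ε) ≤ dimH (LS x B) := by
  obtain ⟨n0, hn0⟩ := eventually_atTop.1 hH
  obtain ⟨φ, hφ1, hφ2, hφ3, hφ4, hφ5⟩ := exists_subseq hxt hε n0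
  have h1 := le_dimH_of_thick (B := fun k => B (φ k)) (y := fun k => x (φ k)) hθ hε hθε hφ3 hφ4 hφ5
    (fun k => hn0 _ (hφ2 k))
  refine h1.trans (dimH_mono ?_)
  rintro α ⟨h2, h3, h4⟩
  refine ⟨h2, h3, ?_⟩
  rw [frequently_atTop]
  intro a
  exact ⟨φ a, hφ1.id_le a, h4 a⟩

theorem le_dimH_LI {B : ℕ → Set ℕ} {x : ℕ → ℝ} (hxt : Tendsto x atTop atTop) {θ ε : ℝ} (hθ : 0 < θ)
    (hε : 0 < ε) (hθε : θ + ε < 1) (hH : ∀ᶠ n in atTop, Thick (B n) (x n) θ)
    (hgrow : ∀ᶠ n in atTop, 32 * x n ≤ x (n + 1) ^ ε) :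
    ENNReal.ofReal (1 - θ - ε) ≤ dimH (LI x B) := by
  have hxε : Tendsto (fun n => x n ^ ε) atTop atTop := (tendsto_rpow_atTop hε).comp hxt
  obtain ⟨n0, hn0⟩ := eventually_atTop.1 (hH.and (hgrow.and ((hxt.eventually_ge_atTop 1).and
    (hxε.eventually_ge_atTop 16))))
  have h1 := le_dimH_of_thick (B := fun k => B (k + n0)) (y := fun k => x (k + n0)) hθ hε hθε
    (fun k => (hn0 (k + n0) (by omega)).2.2.1) (hn0 (0 + n0) (by omega)).2.2.2
    (fun k => by
      have := (hn0 (k + n0) (by omega)).2.1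
      rwa [show k + n0 + 1 = k + 1 + n0 by ring] at this)
    (fun k => (hn0 (k + n0) (by omega)).1)
  refine h1.trans (dimH_mono ?_)
  rintro α ⟨h2, h3, h4⟩
  refine ⟨h2, h3, ?_⟩
  filter_upwards [eventually_ge_atTop n0] with n hn
  have := h4 (n - n0)
  simp only [Nat.sub_add_cancel hn] at this
  exact this

theorem ofReal_le_of_forall {θ : ℝ} (hθ : θ < 1) {d : ℝ≥0∞}
    (h : ∀ ε : ℝ, 0 < ε → θ + ε < 1 → ENNReal.ofReal (1 - θ - ε) ≤ d) : ENNReal.ofReal (1 - θ) ≤ d := by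
  have h1 : Tendsto (fun ε : ℝ => ENNReal.ofReal (1 - θ - ε)) (𝓝[>] 0) (𝓝 (ENNReal.ofReal (1 - θ))) := by
    have h2 : Tendsto (fun ε : ℝ => ENNReal.ofReal (1 - θ - ε)) (𝓝 0) (𝓝 (ENNReal.ofReal (1 - θ - 0))) :=
      (ENNReal.continuous_ofReal.comp (continuous_const.sub continuous_id)).tendsto 0
    rw [sub_zero] at h2
    exact h2.mono_left nhdsWithin_le_nhds
  refine le_of_tendsto h1 ?_
  have h3 : ∀ᶠ ε : ℝ in 𝓝[>] 0, ε < 1 - θ :=
    nhdsWithin_le_nhds (Iio_mem_nhds (by linarith))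
  filter_upwards [h3, self_mem_nhdsWithin] with ε h4 h5
  exact h ε h5 (by linarith)

/-- Job D2 of project SM. -/
theorem t_D2 : J_D2 := by
  intro x B θ hx hθ0 hθ1 hH
  have hxt := Q120.MF.eventually_large hx.1 hx.2
  refine ⟨ofReal_le_of_forall hθ1 (fun ε hε hθε => le_dimH_LS hxt hθ0 hε hθε hH), fun hgrow => ?_⟩
  refine ofReal_le_of_forall hθ1 (fun ε hε hθε => le_dimH_LI hxt hθ0 hε hθε hH ?_)
  have hlogt : Tendsto (fun n => Real.log (x n)) atTop atTop := Real.tendsto_log_atTop.comp hxt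
  filter_upwards [hgrow.eventually_ge_atTop (2 / ε), hlogt.eventually_ge_atTop (Real.log 32)] with n h1 h2
  have hlog32 : 0 < Real.log 32 := Real.log_pos (by norm_num)
  have hln : 0 < Real.log (x n) := by linarith
  rw [div_le_div_iff₀ hε hln] at h1
  have h3 : Real.log (32 * x n) ≤ Real.log (x (n + 1) ^ ε) := by
    rw [Real.log_mul (by norm_num) (hx.1 n).ne', Real.log_rpow (hx.1 _)]
    linarith
  exact (Real.log_le_log_iff (by have := hx.1 n; positivity) (Real.rpow_pos_of_pos (hx.1 _) _)).1 h3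

end Pool.Agent.Q210.SM
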