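import Mathlib

set_option autoImplicit false

/-! # Partitions of the vertices of a graph into `k` parts and their edge statistics -/

namespace Pool.Agent.Q210.SM

/-- The number of vertices in the part `i` of the partition `f`. -/
noncomputable def size {V : Type} {k : ℕ} (f : V → Fin k) (i : Fin k) : ℕ :=
  Nat.card {v : V // f v = i}

/-- The number of edges of `G` between the two parts given by `q` (inside the part `i` if
`q = s(i, i)`). -/
noncomputable def edgesIn {V : Type} {k : ℕ} (G : SimpleGraph V) (f : V → Fin k)
    (q : Sym2 (Fin k)) : ℕ :=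
  Nat.card {e : Sym2 V // e ∈ G.edgeSet ∧ e.map f = q}

/-- The number of pairs of different nonadjacent vertices of `G` between the two parts given by
`q` (inside the part `i` if `q = s(i, i)`). -/
noncomputable def nonEdgesIn {V : Type} {k : ℕ} (G : SimpleGraph V) (f : V → Fin k)
    (q : Sym2 (Fin k)) : ℕ :=
  Nat.card {e : Sym2 V // (¬ e.IsDiag ∧ e ∉ G.edgeSet) ∧ e.map f = q}

open Classical in
/-- The partition function of `G` for the spin model with `k` states, vertex weights `α`, weights
`β` of the edges and weights `γ` of the pairs of nonadjacent vertices. For `γ = 1` this is the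
number of homomorphisms from `G` to the weighted graph `(α, β)` with `k` vertices. -/
noncomputable def partitionFunction {V : Type} [Fintype V] [DecidableEq V] {k : ℕ} {R : Type}
    [CommSemiring R]
    (G : SimpleGraph V) (α : Fin k → R) (β γ : Sym2 (Fin k) → R) : R :=
  ∑ f : V → Fin k, (∏ v, α (f v)) * (∏ e : {e : Sym2 V // e ∈ G.edgeSet}, β (e.1.map f)) *
    ∏ e : {e : Sym2 V // ¬ e.IsDiag ∧ e ∉ G.edgeSet}, γ (e.1.map f)

end Pool.Agent.Q210.SM
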