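import Pool.Agent.Q210.SM.Graph

set_option autoImplicit false

/-! # An odd permutation gives a nonisomorphic graph -/

namespace Pool.Agent.Q210.SM

open Finset

variable {r p : ℕ}

/-- The vertex `w` has exactly one neighbour. -/
def IsLeaf {V : Type} (G : SimpleGraph V) (w : V) : Prop := ∃ v, ∀ u, G.Adj w u ↔ u = v

/-- The leaves of `gp ρ`. -/
def lf : Vx r p → Prop
  | Vx.l j a => a ≤ j
  | Vx.t _ => True
  | Vx.b _ => True
  | _ => False

theorem exists_nb (ρ : Equiv.Perm (Fin r)) (S : Finset (Fin r)) (ε : ZMod 2) (i : Fin r) :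
    ∃ T δ, (i ∈ T ↔ i ∉ S) ∧ (∀ j, j ≠ i → (j ∈ T ↔ j ∈ S)) ∧
      (gp ρ : SimpleGraph (Vx r p)).Adj (Vx.s S ε) (Vx.s T δ) := by
  by_cases h : i ∈ S
  · refine ⟨S.erase i, ε + up (S.erase i) i, by simp [h], ?_, Or.inr ⟨i, by simp, ?_, ?_⟩⟩
    · intro j hj
      simp [hj]
    · rw [Finset.insert_erase h]
    · rw [add_assoc, two_mul_z, add_zero]
  · refine ⟨insert i S, ε + up S i, by simp [h], ?_, Or.inl ⟨i, h, rfl, rfl⟩⟩
    intro j hj
    simp [hj]

theorem leaf_iff (h1 : 1 < r) (ρ : Equiv.Perm (Fin r)) (w : Vx r p) :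
    IsLeaf (gp ρ) w ↔ lf w := by
  cases w with
  | s S ε =>
    refine ⟨?_, fun h => h.elim⟩
    rintro ⟨v, hv⟩
    obtain ⟨T, δ, hT1, hT2, hT3⟩ := exists_nb (p := p) ρ S ε ⟨0, by omega⟩
    obtain ⟨T', δ', hT1', hT2', hT3'⟩ := exists_nb (p := p) ρ S ε ⟨1, h1⟩
    have h2 := (hv _).1 hT3
    have h3 := (hv _).1 hT3'
    rw [← h3] at h2
    have h4 : T = T' := by
      injection h2
    have h5 := hT2' ⟨0, by omega⟩ (by simp [Fin.ext_iff])
    rw [← h4, hT1] at h5
    exact (not_iff_self h5).elim
  | x i =>
    refine ⟨?_, fun h => h.elim⟩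
    rintro ⟨v, hv⟩
    have h2 := (hv (Vx.s {i} 0)).1 (Or.inr (Finset.mem_singleton_self i))
    have h3 := (hv (Vx.s {i} 1)).1 (Or.inr (Finset.mem_singleton_self i))
    rw [← h3] at h2
    injection h2 with _ h4
    exact absurd h4 (by decide)
  | l j a =>
    constructor
    · rintro ⟨v, hv⟩
      have h2 := (hv v).2 rfl
      cases v with
      | s S ε => exact (h2.elim id id : False).elim
      | x i =>
        rcases h2 with h2 | h2
        · exact h2.elim
        · exact h2.2
      | l j a => exact (h2.elim id id : False).elim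
      | t a => exact (h2.elim id id : False).elim
      | b a => exact (h2.elim id id : False).elim
    · intro h
      refine ⟨Vx.x (ρ j), ?_⟩
      intro u
      cases u with
      | s S ε => exact ⟨fun h2 => (h2.elim id id : False).elim, fun h2 => by cases h2⟩
      | x i =>
        constructor
        · rintro (h2 | h2)
          · exact h2.elim
          · rw [h2.1]
        · intro h2
          injection h2 with h3
          exact Or.inr ⟨h3.symm, h⟩
      | l j a => exact ⟨fun h2 => (h2.elim id id : False).elim, fun h2 => by cases h2⟩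
      | t a => exact ⟨fun h2 => (h2.elim id id : False).elim, fun h2 => by cases h2⟩
      | b a => exact ⟨fun h2 => (h2.elim id id : False).elim, fun h2 => by cases h2⟩
  | t a =>
    refine ⟨fun _ => trivial, fun _ => ⟨Vx.s Finset.univ 0, ?_⟩⟩
    intro u
    cases u with
    | s S ε =>
      constructor
      · rintro (h2 | h2)
        · exact h2.elim
        · rw [h2.1, h2.2]
      · intro h2
        injection h2 with h3 h4
        exact Or.inr ⟨h3, h4⟩
    | x i => exact ⟨fun h2 => (h2.elim id id : False).elim, fun h2 => by cases h2⟩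
    | l j a => exact ⟨fun h2 => (h2.elim id id : False).elim, fun h2 => by cases h2⟩
    | t a => exact ⟨fun h2 => (h2.elim id id : False).elim, fun h2 => by cases h2⟩
    | b a => exact ⟨fun h2 => (h2.elim id id : False).elim, fun h2 => by cases h2⟩
  | b a =>
    refine ⟨fun _ => trivial, fun _ => ⟨Vx.s ∅ 0, ?_⟩⟩
    intro u
    cases u with
    | s S ε =>
      constructor
      · rintro (h2 | h2)
        · exact h2.elim
        · rw [h2.1, h2.2]
      · intro h2
        injection h2 with h3 h4
        exact Or.inr ⟨h3, h4⟩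
    | x i => exact ⟨fun h2 => (h2.elim id id : False).elim, fun h2 => by cases h2⟩
    | l j a => exact ⟨fun h2 => (h2.elim id id : False).elim, fun h2 => by cases h2⟩
    | t a => exact ⟨fun h2 => (h2.elim id id : False).elim, fun h2 => by cases h2⟩
    | b a => exact ⟨fun h2 => (h2.elim id id : False).elim, fun h2 => by cases h2⟩

/-- The number of leaves at a vertex. -/
noncomputable def lc {V : Type} (G : SimpleGraph V) (v : V) : ℕ :=
  {w | G.Adj v w ∧ IsLeaf G w}.ncard

theorem isLeaf_iso {V W : Type} {G : SimpleGraph V} {H : SimpleGraph W} (φ : G ≃g H) (w : V) :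
    IsLeaf H (φ w) ↔ IsLeaf G w := by
  constructor
  · rintro ⟨v, hv⟩
    refine ⟨φ.symm v, fun u => ?_⟩
    rw [← φ.map_adj_iff, hv]
    constructor
    · intro h
      rw [← h, φ.symm_apply_apply]
    · intro h
      rw [h, φ.apply_symm_apply]
  · rintro ⟨v, hv⟩
    refine ⟨φ v, fun u => ?_⟩
    have h1 := hv (φ.symm u)
    rw [← φ.map_adj_iff, φ.apply_symm_apply] at h1
    rw [h1]
    constructor
    · intro h
      rw [← h, φ.apply_symm_apply]
    · intro h
      rw [h, φ.symm_apply_apply]

theorem lc_iso {V W : Type} {G : SimpleGraph V} {H : SimpleGraph W} (φ : G ≃g H) (v : V) :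
    lc H (φ v) = lc G v := by
  unfold lc
  have : {w | H.Adj (φ v) w ∧ IsLeaf H w} = φ '' {w | G.Adj v w ∧ IsLeaf G w} := by
    ext w
    constructor
    · rintro ⟨h1, h2⟩
      refine ⟨φ.symm w, ⟨?_, ?_⟩, φ.apply_symm_apply w⟩
      · rw [← φ.map_adj_iff, φ.apply_symm_apply]
        exact h1
      · rw [← isLeaf_iso φ, φ.apply_symm_apply]
        exact h2
    · rintro ⟨u, ⟨h1, h2⟩, rfl⟩
      exact ⟨φ.map_adj_iff.2 h1, (isLeaf_iso φ u).2 h2⟩
  rw [this, Set.ncard_image_of_injective _ φ.injective]

theorem lc_x (h1 : 1 < r) (ρ : Equiv.Perm (Fin r)) (i : Fin r) :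
    lc (gp ρ : SimpleGraph (Vx r p)) (Vx.x i) = (ρ.symm i).val + 1 := by
  unfold lc
  have : {w | (gp ρ : SimpleGraph (Vx r p)).Adj (Vx.x i) w ∧ IsLeaf (gp ρ) w} =
      (fun a => Vx.l (ρ.symm i) a) '' (↑(Finset.Iic (ρ.symm i)) : Set (Fin r)) := by
    ext w
    simp only [Set.mem_ofPred_eq, leaf_iff h1]
    constructor
    · rintro ⟨h2, h3⟩
      cases w with
      | s S ε => exact h3.elim
      | x i => exact h3.elim
      | l j a =>
        rcases h2 with h2 | h2
        · obtain ⟨rfl, h4⟩ := h2
          rw [Equiv.symm_apply_apply]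
          exact ⟨a, by simpa using h4, rfl⟩
        · exact h2.elim
      | t a => exact (h2.elim id id : False).elim
      | b a => exact (h2.elim id id : False).elim
    · rintro ⟨a, ha, rfl⟩
      have ha' : a ≤ ρ.symm i := by simpa using ha
      exact ⟨Or.inl ⟨ρ.apply_symm_apply i, ha'⟩, ha'⟩
  rw [this, Set.ncard_image_of_injective, Set.ncard_coe_finset, Fin.card_Iic]
  intro a b h
  injection h

theorem lc_top (h1 : 1 < r) (ρ : Equiv.Perm (Fin r)) :
    lc (gp ρ : SimpleGraph (Vx r p)) (Vx.s Finset.univ 0) = r + 1 := by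
  unfold lc
  have : {w | (gp ρ : SimpleGraph (Vx r p)).Adj (Vx.s Finset.univ 0) w ∧ IsLeaf (gp ρ) w} =
      Vx.t '' (Set.univ : Set (Fin (r + 1))) := by
    ext w
    simp only [Set.mem_ofPred_eq, leaf_iff h1]
    constructor
    · rintro ⟨h2, h3⟩
      cases w with
      | s S ε => exact h3.elim
      | x i => exact h3.elim
      | l j a => exact (h2.elim id id : False).elim
      | t a => exact ⟨a, trivial, rfl⟩
      | b a =>
        rcases h2 with h2 | h2
        · exfalso
          have : (⟨0, by omega⟩ : Fin r) ∈ (∅ : Finset (Fin r)) := by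
            rw [← h2.1]
            exact Finset.mem_univ _
          simp at this
        · exact h2.elim
    · rintro ⟨a, _, rfl⟩
      exact ⟨Or.inl ⟨rfl, rfl⟩, trivial⟩
  rw [this, Set.ncard_image_of_injective, Set.ncard_univ, Nat.card_eq_fintype_card,
    Fintype.card_fin]
  intro a b h
  injection h

theorem lc_bot (h1 : 1 < r) (ρ : Equiv.Perm (Fin r)) :
    lc (gp ρ : SimpleGraph (Vx r p)) (Vx.s ∅ 0) = r + 2 + p := by
  unfold lc
  have : {w | (gp ρ : SimpleGraph (Vx r p)).Adj (Vx.s ∅ 0) w ∧ IsLeaf (gp ρ) w} =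
      Vx.b '' (Set.univ : Set (Fin (r + 2 + p))) := by
    ext w
    simp only [Set.mem_ofPred_eq, leaf_iff h1]
    constructor
    · rintro ⟨h2, h3⟩
      cases w with
      | s S ε => exact h3.elim
      | x i => exact h3.elim
      | l j a => exact (h2.elim id id : False).elim
      | t a =>
        rcases h2 with h2 | h2
        · exfalso
          have : (⟨0, by omega⟩ : Fin r) ∈ (∅ : Finset (Fin r)) := by
            rw [h2.1]
            exact Finset.mem_univ _
          simp at this
        · exact h2.elim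
      | b a => exact ⟨a, trivial, rfl⟩
    · rintro ⟨a, _, rfl⟩
      exact ⟨Or.inl ⟨rfl, rfl⟩, trivial⟩
  rw [this, Set.ncard_image_of_injective, Set.ncard_univ, Nat.card_eq_fintype_card,
    Fintype.card_fin]
  intro a b h
  injection h

theorem lc_zero (h1 : 1 < r) (ρ : Equiv.Perm (Fin r)) (v : Vx r p) (hx : ∀ i, v ≠ Vx.x i)
    (ht : v ≠ Vx.s Finset.univ 0) (hb : v ≠ Vx.s ∅ 0) :
    lc (gp ρ : SimpleGraph (Vx r p)) v = 0 := by
  unfold lc
  have : {w | (gp ρ : SimpleGraph (Vx r p)).Adj v w ∧ IsLeaf (gp ρ) w} = ∅ := by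
    ext w
    simp only [Set.mem_ofPred_eq, leaf_iff h1, Set.mem_empty_iff_false, iff_false]
    rintro ⟨h2, h3⟩
    cases w with
    | s S ε => exact h3
    | x i => exact h3
    | l j a =>
      cases v with
      | x i => exact hx i rfl
      | s S ε => exact h2.elim id id
      | l j a => exact h2.elim id id
      | t a => exact h2.elim id id
      | b a => exact h2.elim id id
    | t a =>
      cases v with
      | x i => exact hx i rfl
      | s S ε =>
        rcases h2 with h2 | h2
        · exact ht (by rw [h2.1, h2.2])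
        · exact h2
      | l j a => exact h2.elim id id
      | t a => exact h2.elim id id
      | b a => exact h2.elim id id
    | b a =>
      cases v with
      | x i => exact hx i rfl
      | s S ε =>
        rcases h2 with h2 | h2
        · exact hb (by rw [h2.1, h2.2])
        · exact h2
      | l j a => exact h2.elim id id
      | t a => exact h2.elim id id
      | b a => exact h2.elim id id
  rw [this, Set.ncard_empty]

theorem noniso (h1 : 1 < r) (σ : Equiv.Perm (Fin r)) (hσ : inv σ Finset.univ = 1)
    (φ : (gp 1 : SimpleGraph (Vx r p)) ≃g (gp σ : SimpleGraph (Vx r p))) : False := by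
  classical
  have hbot : φ (Vx.s ∅ 0) = Vx.s ∅ 0 := by
    have h2 := lc_iso φ (Vx.s ∅ 0)
    rw [lc_bot h1] at h2
    by_contra hne
    by_cases hx : ∃ i, φ (Vx.s ∅ 0) = Vx.x i
    · obtain ⟨i, hi⟩ := hx
      rw [hi, lc_x h1] at h2
      have := (σ.symm i).isLt
      omega
    · push Not at hx
      by_cases ht : φ (Vx.s ∅ 0) = Vx.s Finset.univ 0
      · rw [ht, lc_top h1] at h2
        omega
      · rw [lc_zero h1 σ _ hx ht hne] at h2
        omega
  have htop : φ (Vx.s Finset.univ 0) = Vx.s Finset.univ 0 := by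
    have h2 := lc_iso φ (Vx.s Finset.univ 0)
    rw [lc_top h1] at h2
    by_contra hne
    by_cases hx : ∃ i, φ (Vx.s Finset.univ 0) = Vx.x i
    · obtain ⟨i, hi⟩ := hx
      rw [hi, lc_x h1] at h2
      have := (σ.symm i).isLt
      omega
    · push Not at hx
      by_cases ht : φ (Vx.s Finset.univ 0) = Vx.s ∅ 0
      · rw [ht, lc_bot h1] at h2
        omega
      · rw [lc_zero h1 σ _ hx hne ht] at h2
        omega
  have hxx : ∀ i, φ (Vx.x i) = Vx.x (σ i) := by
    intro i
    have h2 := lc_iso φ (Vx.x i)
    rw [lc_x h1 1] at h2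
    have h3 : ((1 : Equiv.Perm (Fin r)).symm i) = i := rfl
    rw [h3] at h2
    have hi := i.isLt
    by_cases hx : ∃ j, φ (Vx.x i) = Vx.x j
    · obtain ⟨j, hj⟩ := hx
      rw [hj, lc_x h1] at h2
      have h4 : σ.symm j = i := Fin.ext (by omega)
      rw [hj, ← h4, Equiv.apply_symm_apply]
    · exfalso
      push Not at hx
      by_cases ht : φ (Vx.x i) = Vx.s Finset.univ 0
      · rw [ht, lc_top h1] at h2
        omega
      · by_cases hb : φ (Vx.x i) = Vx.s ∅ 0
        · rw [hb, lc_bot h1] at h2
          omega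
        · rw [lc_zero h1 σ _ hx ht hb] at h2
          omega
  have key : ∀ S : Finset (Fin r), ∃ ε, φ (Vx.s S ε) =
      Vx.s (S.map σ.toEmbedding) (ε + inv σ S) := by
    intro S
    induction S using Finset.induction_on with
    | empty =>
      refine ⟨0, ?_⟩
      rw [hbot, inv_empty, Finset.map_empty, add_zero]
    | insert i S hi ih =>
      obtain ⟨ε, hε⟩ := ih
      refine ⟨ε + up S i, ?_⟩
      have hi2 : σ i ∉ S.map σ.toEmbedding := by
        rw [Finset.mem_map]
        rintro ⟨a, ha, h⟩
        exact hi (σ.injective h ▸ ha)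
      have ha1 : (gp 1 : SimpleGraph (Vx r p)).Adj (Vx.s S ε)
          (Vx.s (insert i S) (ε + up S i)) := Or.inl ⟨i, hi, rfl, rfl⟩
      have ha2 : (gp 1 : SimpleGraph (Vx r p)).Adj (Vx.s (insert i S) (ε + up S i)) (Vx.x i) :=
        Or.inl (Finset.mem_insert_self i S)
      have hb1 := φ.map_adj_iff.2 ha1
      have hb2 := φ.map_adj_iff.2 ha2
      rw [hε] at hb1
      rw [hxx] at hb2
      cases hv : φ (Vx.s (insert i S) (ε + up S i)) with
      | s T δ =>
        rw [hv] at hb1 hb2
        have hT : σ i ∈ T := by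
          rcases hb2 with h | h
          · exact h
          · exact h.elim
        rcases hb1 with ⟨j, hj, hTj, hδ⟩ | ⟨j, hj, hTj, hδ⟩
        · have hji : j = σ i := by
            rw [hTj, Finset.mem_insert] at hT
            rcases hT with h | h
            · exact h.symm
            · exact absurd h hi2
          subst hji
          rw [Finset.map_insert]
          rw [inv_insert _ _ _ hi, hTj, hδ]
          have h5 := two_mul_z (up S i)
          congr 1
          linear_combination -h5
        · exfalso
          apply hi2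
          rw [hTj]
          exact Finset.mem_insert_of_mem hT
      | x j =>
        rw [hv] at hb2
        exact (hb2.elim id id : False).elim
      | l j a =>
        rw [hv] at hb1
        exact (hb1.elim id id : False).elim
      | t a =>
        rw [hv] at hb2
        exact (hb2.elim id id : False).elim
      | b a =>
        rw [hv] at hb2
        exact (hb2.elim id id : False).elim
  obtain ⟨ε, hε⟩ := key Finset.univ
  rw [hσ, Finset.map_univ_equiv] at hε
  have hz : ∀ a : ZMod 2, a = 0 ∨ a = 1 := by decide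
  have hε2 := hz ε
  rcases hε2 with h | h
  · subst h
    rw [htop] at hε
    injection hε with _ h2
    exact absurd h2 (by decide)
  · subst h
    have h2 : (1 : ZMod 2) + 1 = 0 := by decide
    rw [h2, ← htop] at hε
    have h3 := φ.injective hε
    injection h3 with _ h4
    exact absurd h4 (by decide)

end Pool.Agent.Q210.SM
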