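import Pool.Agent.Q120.SM.Stm
import Pool.Agent.Q120.MF.Events

/-!
# Project SM of helper120, job PU: few bad positions almost surely
-/

set_option autoImplicit false

namespace Pool.Agent.Q210.SM

open Finset MeasureTheory Filter Topology
open Pool.Agent Pool.Agent.Q120.SM
open scoped ENNReal NNReal

/-- Job PU of project SM. -/
theorem t_PU : J_PU := by
  classical
  intro Ω _ μ _ x E s hx hE hP δ hδ
  have hxt := Q120.MF.eventually_large hx.1 hx.2
  have hx0 := hx.1
  obtain ⟨I, hI⟩ : ∃ I : ℕ → Finset ℕ, I = fun n =>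
      (range (⌊2 * x n⌋₊ + 1)).filter (fun m : ℕ => x n - 1 < m ∧ (m : ℝ) ≤ 2 * x n) := ⟨_, rfl⟩
  have hmem : ∀ n m, m ∈ I n ↔ x n - 1 < m ∧ (m : ℝ) ≤ 2 * x n := by
    intro n m
    rw [hI]
    simp only [mem_filter, mem_range, and_iff_right_iff_imp]
    rintro ⟨_, h⟩
    exact Nat.lt_succ_of_le (Nat.le_floor h)
  have hset : ∀ n ω, {m : ℕ | m ∈ {m | ω ∈ E n m} ∧ x n - 1 < m ∧ (m : ℝ) ≤ 2 * x n}.ncard =
      ((I n).filter (fun m => ω ∈ E n m)).card := by
    intro n ω
    rw [← Set.ncard_coe_finset]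
    congr 1
    ext m
    simp only [Set.mem_ofPred_eq, coe_filter, hmem]
    tauto
  have hbound : ∀ᶠ n in atTop, μ.real {ω | x n ^ (1 - s + δ) ≤ (((I n).filter (fun m => ω ∈ E n m)).card : ℝ)} ≤
      3 * x n ^ (-(δ / 2)) := by
    filter_upwards [hxt.eventually_ge_atTop 1, hP (δ / 2) (by linarith)] with n hn1 hn2
    have hxn := hx0 n
    refine (Q120.MF.markov (μ := μ) (I n) (E n) (fun m _ => hE n m) (Real.rpow_pos_of_pos hxn _)).trans ?_
    have hcard : ((I n).card : ℝ) ≤ 3 * x n := by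
      have h1 : (I n).card ≤ ⌊2 * x n⌋₊ + 1 := by
        rw [hI]
        exact (card_filter_le _ _).trans (by rw [card_range])
      have h2 : ((I n).card : ℝ) ≤ (⌊2 * x n⌋₊ : ℝ) + 1 := by exact_mod_cast h1
      have h3 : (⌊2 * x n⌋₊ : ℝ) ≤ 2 * x n := Nat.floor_le (by positivity)
      linarith
    have hsum : ∑ m ∈ I n, μ.real (E n m) ≤ ∑ _m ∈ I n, x n ^ (-s + δ / 2) :=
      sum_le_sum (fun m hm => hn2 m ((hmem n m).1 hm).1 ((hmem n m).1 hm).2)
    rw [sum_const, nsmul_eq_mul] at hsum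
    rw [div_le_iff₀ (Real.rpow_pos_of_pos hxn _)]
    refine hsum.trans ?_
    have h1 : 3 * x n ^ (-(δ / 2)) * x n ^ (1 - s + δ) = 3 * x n * x n ^ (-s + δ / 2) := by
      have h2 : x n ^ (-(δ / 2)) * x n ^ (1 - s + δ) = x n * x n ^ (-s + δ / 2) := by
        rw [← Real.rpow_add hxn]
        nth_rewrite 2 [← Real.rpow_one (x n)]
        rw [← Real.rpow_add hxn]
        congr 1; ring
      rw [mul_assoc, h2]; ring
    rw [h1]
    exact mul_le_mul_of_nonneg_right hcard (Real.rpow_nonneg hxn.le _)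
  have hts : ∑' n, μ {ω | x n ^ (1 - s + δ) ≤ (((I n).filter (fun m => ω ∈ E n m)).card : ℝ)} ≠ ⊤ := by
    obtain ⟨n0, hn0⟩ := eventually_atTop.1 hbound
    have h1 : Summable (fun n => μ.real {ω | x n ^ (1 - s + δ) ≤
        (((I n).filter (fun m => ω ∈ E n m)).card : ℝ)}) := by
      rw [← summable_nat_add_iff n0]
      refine Summable.of_nonneg_of_le (fun n => measureReal_nonneg) (fun n => hn0 (n + n0) (by omega))
        ((summable_nat_add_iff n0).2 ((hx.2 (δ / 2) (by linarith)).mul_left 3))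
    have h2 : ∀ n, μ {ω | x n ^ (1 - s + δ) ≤ (((I n).filter (fun m => ω ∈ E n m)).card : ℝ)} =
        ENNReal.ofReal (μ.real {ω | x n ^ (1 - s + δ) ≤
          (((I n).filter (fun m => ω ∈ E n m)).card : ℝ)}) := fun n => by
      rw [Measure.real, ENNReal.ofReal_toReal (measure_ne_top μ _)]
    simp_rw [h2]
    exact h1.tsum_ofReal_ne_top
  filter_upwards [ae_eventually_notMem hts] with ω hω
  filter_upwards [hω] with n hn
  unfold Few
  rw [hset]
  exact not_le.1 hn

end Pool.Agent.Q210.SM
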