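import Mathlib

set_option autoImplicit false

/-! # Inversions of a permutation on a subset -/

namespace Pool.Agent.Q210.SM

open Finset

variable {r : ℕ}

/-- The number modulo two of the elements of `S` above `i`. -/
def up (S : Finset (Fin r)) (i : Fin r) : ZMod 2 := ∑ a ∈ S, if i < a then 1 else 0

/-- The number modulo two of the inversions of `π` on `S`. -/
def inv (π : Equiv.Perm (Fin r)) (S : Finset (Fin r)) : ZMod 2 :=
  ∑ a ∈ S, ∑ b ∈ S, if a < b ∧ π b < π a then 1 else 0

theorem inv_empty (π : Equiv.Perm (Fin r)) : inv π ∅ = 0 := by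
  simp [inv]

theorem two_mul_z (a : ZMod 2) : a + a = 0 := by
  revert a
  decide

theorem up_map (π : Equiv.Perm (Fin r)) (S : Finset (Fin r)) (i : Fin r) :
    up (S.map π.toEmbedding) (π i) = ∑ a ∈ S, if π i < π a then 1 else 0 := by
  unfold up
  rw [Finset.sum_map]
  rfl

theorem inv_insert (π : Equiv.Perm (Fin r)) (S : Finset (Fin r)) (i : Fin r) (hi : i ∉ S) :
    inv π (insert i S) = inv π S + up S i + up (S.map π.toEmbedding) (π i) := by
  rw [up_map]
  unfold inv up
  rw [Finset.sum_insert hi]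
  simp only [Finset.sum_insert hi]
  rw [Finset.sum_add_distrib]
  have h0 : (if i < i ∧ π i < π i then (1 : ZMod 2) else 0) = 0 := by
    rw [if_neg]
    simp
  rw [h0, zero_add]
  have h1 : (∑ b ∈ S, if i < b ∧ π b < π i then (1 : ZMod 2) else 0) +
      (∑ a ∈ S, if a < i ∧ π i < π a then (1 : ZMod 2) else 0) =
      (∑ a ∈ S, if i < a then (1 : ZMod 2) else 0) +
      (∑ a ∈ S, if π i < π a then (1 : ZMod 2) else 0) := by
    rw [← Finset.sum_add_distrib, ← Finset.sum_add_distrib]
    apply Finset.sum_congr rfl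
    intro a ha
    have hne : a ≠ i := fun h => hi (h ▸ ha)
    have hne2 : π a ≠ π i := fun h => hne (π.injective h)
    rcases lt_or_gt_of_ne hne with h2 | h2 <;> rcases lt_or_gt_of_ne hne2 with h3 | h3
    · simp [h2, h3, h2.not_gt, h3.not_gt]
    · simp [h2, h3, h2.not_gt, h3.not_gt]
    · simp [h2, h3, h2.not_gt, h3.not_gt]
    · simp [h2, h3, h2.not_gt, h3.not_gt]
      decide
  calc _ = (∑ x ∈ S, ∑ x_1 ∈ S, if x < x_1 ∧ π x_1 < π x then (1 : ZMod 2) else 0) +
      ((∑ b ∈ S, if i < b ∧ π b < π i then (1 : ZMod 2) else 0) +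
      (∑ a ∈ S, if a < i ∧ π i < π a then (1 : ZMod 2) else 0)) := by ring
    _ = _ := by
      rw [h1]
      ring

theorem inv_mul (π σ : Equiv.Perm (Fin r)) (S : Finset (Fin r)) :
    inv (π * σ) S = inv σ S + inv π (S.map σ.toEmbedding) := by
  induction S using Finset.induction_on with
  | empty => simp [inv_empty]
  | insert i S hi ih =>
    have hi2 : σ i ∉ S.map σ.toEmbedding := by
      rw [Finset.mem_map]
      rintro ⟨a, ha, h⟩
      exact hi (σ.injective h ▸ ha)
    rw [inv_insert _ _ _ hi, inv_insert _ _ _ hi, Finset.map_insert]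
    show _ = _ + inv π (insert (σ i) _)
    rw [inv_insert _ _ _ hi2, ih]
    have h1 : (S.map σ.toEmbedding).map π.toEmbedding = S.map (π * σ).toEmbedding := by
      rw [Finset.map_map]
      rfl
    rw [h1]
    have h2 := two_mul_z (up (S.map σ.toEmbedding) (σ i))
    show _ = _ + (_ + _ + up _ ((π * σ) i))
    linear_combination -h2

theorem inv_swap (h : 1 < r) (hr : 0 < r) :
    inv (Equiv.swap (⟨0, hr⟩ : Fin r) ⟨1, h⟩) Finset.univ = 1 := by
  unfold inv
  have key : ∀ a b : Fin r, (a < b ∧ Equiv.swap (⟨0, hr⟩ : Fin r) ⟨1, h⟩ b <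
      Equiv.swap (⟨0, hr⟩ : Fin r) ⟨1, h⟩ a) ↔ (a = ⟨0, hr⟩ ∧ b = ⟨1, h⟩) := by
    intro a b
    simp only [Equiv.swap_apply_def, Fin.ext_iff, Fin.lt_def]
    split_ifs <;> simp <;> omega
  simp only [key]
  rw [Finset.sum_eq_single ⟨0, hr⟩]
  · rw [Finset.sum_eq_single ⟨1, h⟩]
    · simp
    · intro b _ hb
      rw [if_neg]
      rintro ⟨_, h2⟩
      exact hb h2
    · intro h2
      exact absurd (Finset.mem_univ _) h2
  · intro a _ ha
    apply Finset.sum_eq_zero
    intro b _
    rw [if_neg]
    rintro ⟨h2, _⟩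
    exact ha h2
  · intro h2
    exact absurd (Finset.mem_univ _) h2

/-- The parity of the inversions as a homomorphism. -/
def invHom (r : ℕ) : Equiv.Perm (Fin r) →* ℤˣ where
  toFun π := if inv π Finset.univ = 0 then 1 else -1
  map_one' := by
    have : inv (1 : Equiv.Perm (Fin r)) Finset.univ = 0 := by
      unfold inv
      apply Finset.sum_eq_zero
      intro a _
      apply Finset.sum_eq_zero
      intro b _
      rw [if_neg]
      rintro ⟨h1, h2⟩
      exact lt_asymm h1 h2
    rw [if_pos this]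
  map_mul' π σ := by
    have h1 : (Finset.univ : Finset (Fin r)).map σ.toEmbedding = Finset.univ :=
      Finset.map_univ_equiv σ
    rw [inv_mul, h1]
    generalize inv σ Finset.univ = a
    generalize inv π Finset.univ = b
    revert a b
    decide

theorem inv_eq_zero_iff (h : 1 < r) (π : Equiv.Perm (Fin r)) :
    inv π Finset.univ = 0 ↔ Equiv.Perm.sign π = 1 := by
  have hr : 0 < r := by omega
  have hsurj : Function.Surjective (invHom r) := by
    intro u
    rcases Int.units_eq_one_or u with hu | hu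
    · exact ⟨1, by rw [hu, map_one]⟩
    · refine ⟨Equiv.swap (⟨0, hr⟩ : Fin r) ⟨1, h⟩, ?_⟩
      rw [hu]
      show (if _ then _ else _) = _
      rw [inv_swap h hr, if_neg (by decide)]
  have h2 := Equiv.Perm.eq_sign_of_surjective_hom hsurj
  rw [← h2]
  show _ ↔ (if inv π Finset.univ = 0 then (1 : ℤˣ) else -1) = 1
  by_cases h3 : inv π Finset.univ = 0
  · simp [h3]
  · simp [h3]

end Pool.Agent.Q210.SM
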