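import Pool.Agent.Q210.SM.Defs
import Pool.Agent.Q210.SM.Noniso

set_option autoImplicit false

/-! # The edge statistics of the graphs `gp ρ` -/

namespace Pool.Agent.Q210.SM

open Finset

/-- The statistics of a partition. -/
noncomputable def st {V : Type} {k : ℕ} (G : SimpleGraph V) (f : V → Fin k) :
    (Fin k → ℕ) × (Sym2 (Fin k) → ℕ) × (Sym2 (Fin k) → ℕ) :=
  (size f, edgesIn G f, nonEdgesIn G f)

/-- A bijection of the vertices induces one of the pairs. -/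
def s2 {V W : Type} (e : V ≃ W) : Sym2 V ≃ Sym2 W where
  toFun := Sym2.map e
  invFun := Sym2.map e.symm
  left_inv z := by
    rw [Sym2.map_map]
    simp
  right_inv z := by
    rw [Sym2.map_map]
    simp

theorem st_iso {V W : Type} {k : ℕ} {G : SimpleGraph V} {H : SimpleGraph W} (φ : G ≃g H)
    (f : W → Fin k) : st G (f ∘ φ) = st H f := by
  have he : ∀ e : Sym2 V, e ∈ G.edgeSet ↔ s2 φ.toEquiv e ∈ H.edgeSet := by
    intro e
    induction e using Sym2.inductionOn with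
    | _ u v =>
      show G.Adj u v ↔ H.Adj (φ u) (φ v)
      exact φ.map_adj_iff.symm
  have hm : ∀ e : Sym2 V, e.map (f ∘ φ) = (s2 φ.toEquiv e).map f := by
    intro e
    induction e using Sym2.inductionOn with
    | _ u v => rfl
  have hd : ∀ e : Sym2 V, e.IsDiag ↔ (s2 φ.toEquiv e).IsDiag := by
    intro e
    induction e using Sym2.inductionOn with
    | _ u v =>
      show u = v ↔ φ u = φ v
      exact φ.injective.eq_iff.symm
  unfold st
  refine Prod.ext ?_ (Prod.ext ?_ ?_)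
  · funext i
    exact Nat.card_congr (φ.toEquiv.subtypeEquiv fun v => Iff.rfl)
  · funext q
    refine Nat.card_congr ((s2 φ.toEquiv).subtypeEquiv fun e => ?_)
    rw [he, hm]
  · funext q
    refine Nat.card_congr ((s2 φ.toEquiv).subtypeEquiv fun e => ?_)
    rw [he, hm, hd]

section Weights

variable {R : Type} [CommSemiring R]

theorem prod_comp_card {A B : Type} [Fintype A] [Fintype B] [DecidableEq B] (m : A → B)
    (w : B → R) : ∏ a, w (m a) = ∏ b, w b ^ Nat.card {a // m a = b} := by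
  classical
  rw [← Finset.prod_fiberwise Finset.univ m (fun a => w (m a))]
  apply Finset.prod_congr rfl
  intro b _
  rw [Finset.prod_congr rfl (g := fun _ => w b)]
  · rw [Finset.prod_const]
    congr 1
    rw [Nat.card_eq_fintype_card, Fintype.card_subtype]
  · intro a ha
    rw [(Finset.mem_filter.1 ha).2]

/-- The weight of a partition in terms of its statistics. -/
def wt {k : ℕ} (α : Fin k → R) (β γ : Sym2 (Fin k) → R)
    (s : (Fin k → ℕ) × (Sym2 (Fin k) → ℕ) × (Sym2 (Fin k) → ℕ)) : R :=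
  (∏ i, α i ^ s.1 i) * (∏ q, β q ^ s.2.1 q) * ∏ q, γ q ^ s.2.2 q

theorem partitionFunction_eq {V : Type} [Fintype V] [DecidableEq V] {k : ℕ}
    (G : SimpleGraph V) (α : Fin k → R) (β γ : Sym2 (Fin k) → R) :
    partitionFunction G α β γ = ∑ f : V → Fin k, wt α β γ (st G f) := by
  classical
  unfold partitionFunction
  apply Finset.sum_congr rfl
  intro f _
  unfold wt st
  simp only
  have h2 : ∏ e : {e : Sym2 V // e ∈ G.edgeSet}, β (e.1.map f) =
      ∏ q, β q ^ edgesIn G f q := by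
    rw [prod_comp_card (fun e : {e : Sym2 V // e ∈ G.edgeSet} => e.1.map f) β]
    apply Finset.prod_congr rfl
    intro q _
    congr 1
    exact Nat.card_congr (Equiv.subtypeSubtypeEquivSubtypeInter
      (fun e : Sym2 V => e ∈ G.edgeSet) (fun e => e.map f = q))
  have h3 : ∏ e : {e : Sym2 V // ¬ e.IsDiag ∧ e ∉ G.edgeSet}, γ (e.1.map f) =
      ∏ q, γ q ^ nonEdgesIn G f q := by
    rw [prod_comp_card (fun e : {e : Sym2 V // ¬ e.IsDiag ∧ e ∉ G.edgeSet} => e.1.map f) γ]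
    apply Finset.prod_congr rfl
    intro q _
    congr 1
    exact Nat.card_congr (Equiv.subtypeSubtypeEquivSubtypeInter
      (fun e : Sym2 V => ¬ e.IsDiag ∧ e ∉ G.edgeSet) (fun e => e.map f = q))
  rw [prod_comp_card f α, h2, h3]
  rfl

end Weights

/-! ## Exchanging two vertices of the same part -/

variable {r p k : ℕ}

theorem adj_l (ρ : Equiv.Perm (Fin r)) (j a : Fin r) (v : Vx r p) :
    (gp ρ).Adj (Vx.l j a) v ↔ v = Vx.x (ρ j) ∧ a ≤ j := by
  cases v with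
  | s S ε => exact ⟨fun h => (h.elim id id : False).elim, fun h => by cases h.1⟩
  | x i =>
    constructor
    · rintro (h | h)
      · exact h.elim
      · exact ⟨by rw [h.1], h.2⟩
    · rintro ⟨h1, h2⟩
      injection h1 with h3
      exact Or.inr ⟨h3.symm, h2⟩
  | l j a => exact ⟨fun h => (h.elim id id : False).elim, fun h => by cases h.1⟩
  | t a => exact ⟨fun h => (h.elim id id : False).elim, fun h => by cases h.1⟩
  | b a => exact ⟨fun h => (h.elim id id : False).elim, fun h => by cases h.1⟩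

theorem adj_nl (ρ ρ' : Equiv.Perm (Fin r)) (u v : Vx r p) (hu : ∀ j a, u ≠ Vx.l j a)
    (hv : ∀ j a, v ≠ Vx.l j a) : (gp ρ).Adj u v ↔ (gp ρ').Adj u v := by
  cases u with
  | l j a => exact absurd rfl (hu j a)
  | s S ε =>
    cases v with
    | l j a => exact absurd rfl (hv j a)
    | s S ε => exact Iff.rfl
    | x i => exact Iff.rfl
    | t a => exact Iff.rfl
    | b a => exact Iff.rfl
  | x i =>
    cases v with
    | l j a => exact absurd rfl (hv j a)
    | s S ε => exact Iff.rfl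
    | x i => exact Iff.rfl
    | t a => exact Iff.rfl
    | b a => exact Iff.rfl
  | t a =>
    cases v with
    | l j a => exact absurd rfl (hv j a)
    | s S ε => exact Iff.rfl
    | x i => exact Iff.rfl
    | t a => exact Iff.rfl
    | b a => exact Iff.rfl
  | b a =>
    cases v with
    | l j a => exact absurd rfl (hv j a)
    | s S ε => exact Iff.rfl
    | x i => exact Iff.rfl
    | t a => exact Iff.rfl
    | b a => exact Iff.rfl

theorem mem_edgeSet_nl (ρ ρ' : Equiv.Perm (Fin r)) (e : Sym2 (Vx r p))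
    (he : ¬ ∃ j a, Vx.l j a ∈ e) : e ∈ (gp ρ).edgeSet ↔ e ∈ (gp ρ').edgeSet := by
  induction e using Sym2.inductionOn with
  | _ u v =>
    rw [SimpleGraph.mem_edgeSet, SimpleGraph.mem_edgeSet]
    apply adj_nl
    · rintro j a rfl
      exact he ⟨j, a, by simp⟩
    · rintro j a rfl
      exact he ⟨j, a, by simp⟩

theorem mem_edgeSet_l (ρ : Equiv.Perm (Fin r)) (e : Sym2 (Vx r p)) :
    (e ∈ (gp ρ).edgeSet ∧ ∃ j a, Vx.l j a ∈ e) ↔
      ∃ j a, a ≤ j ∧ s(Vx.x (ρ j), Vx.l j a) = e := by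
  constructor
  · rintro ⟨h1, j, a, h2⟩
    obtain ⟨v, rfl⟩ := h2
    rw [SimpleGraph.mem_edgeSet, adj_l] at h1
    refine ⟨j, a, h1.2, ?_⟩
    rw [h1.1]
    exact Sym2.eq_swap
  · rintro ⟨j, a, h1, rfl⟩
    refine ⟨?_, j, a, by simp⟩
    rw [SimpleGraph.mem_edgeSet, SimpleGraph.adj_comm, adj_l]
    exact ⟨rfl, h1⟩

theorem edgesIn_l (ρ : Equiv.Perm (Fin r)) (f : Vx r p → Fin k) (q : Sym2 (Fin k)) :
    edgesIn (gp ρ) f q =
      {z : Fin r × Fin r | z.2 ≤ z.1 ∧ s(f (Vx.x (ρ z.1)), f (Vx.l z.1 z.2)) = q}.ncard +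
      {e : Sym2 (Vx r p) | (e ∈ (gp 1).edgeSet ∧ e.map f = q) ∧
        ¬ ∃ j a, Vx.l j a ∈ e}.ncard := by
  have h0 : edgesIn (gp ρ) f q =
      {e : Sym2 (Vx r p) | e ∈ (gp ρ).edgeSet ∧ e.map f = q}.ncard := by
    rw [← Nat.card_coe_set_eq]
    rfl
  rw [h0, ← Set.ncard_inter_add_ncard_sdiff_eq_ncard _ {e : Sym2 (Vx r p) | ∃ j a, Vx.l j a ∈ e}]
  congr 1
  · have h1 : {e : Sym2 (Vx r p) | e ∈ (gp ρ).edgeSet ∧ e.map f = q} ∩
        {e : Sym2 (Vx r p) | ∃ j a, Vx.l j a ∈ e} =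
        (fun z : Fin r × Fin r => (s(Vx.x (ρ z.1), Vx.l z.1 z.2) : Sym2 (Vx r p))) ''
        {z : Fin r × Fin r | z.2 ≤ z.1 ∧ s(f (Vx.x (ρ z.1)), f (Vx.l z.1 z.2)) = q} := by
      ext e
      constructor
      · rintro ⟨⟨h1, h2⟩, h3⟩
        obtain ⟨j, a, h4, rfl⟩ := (mem_edgeSet_l ρ e).1 ⟨h1, h3⟩
        exact ⟨(j, a), ⟨h4, h2⟩, rfl⟩
      · rintro ⟨⟨j, a⟩, ⟨h4, h5⟩, rfl⟩
        obtain ⟨h1, h3⟩ := (mem_edgeSet_l ρ _).2 ⟨j, a, h4, rfl⟩
        exact ⟨⟨h1, h5⟩, h3⟩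
    rw [h1, Set.ncard_image_of_injective]
    rintro ⟨j, a⟩ ⟨j', a'⟩ h
    have h2 := Sym2.eq_iff.1 h
    rcases h2 with ⟨_, h3⟩ | ⟨h3, _⟩
    · injection h3 with h4 h5
      exact Prod.ext h4 h5
    · cases h3
  · congr 1
    ext e
    constructor
    · rintro ⟨⟨h1, h2⟩, h3⟩
      exact ⟨⟨(mem_edgeSet_nl ρ 1 e h3).1 h1, h2⟩, h3⟩
    · rintro ⟨⟨h1, h2⟩, h3⟩
      exact ⟨⟨(mem_edgeSet_nl 1 ρ e h3).1 h1, h2⟩, h3⟩

theorem edgesIn_swap (ρ : Equiv.Perm (Fin r)) (f : Vx r p → Fin k) {a b : Fin r}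
    (hf : f (Vx.x a) = f (Vx.x b)) (q : Sym2 (Fin k)) :
    edgesIn (gp (Equiv.swap a b * ρ)) f q = edgesIn (gp ρ) f q := by
  have h : ∀ i, f (Vx.x (Equiv.swap a b i)) = f (Vx.x i) := by
    intro i
    rw [Equiv.swap_apply_def]
    split_ifs with h1 h2
    · rw [h1, hf]
    · rw [h2, hf]
    · rfl
  rw [edgesIn_l, edgesIn_l]
  simp only [Equiv.Perm.mul_apply, h]

theorem nonEdgesIn_add {V : Type} [Finite V] (G : SimpleGraph V) (f : V → Fin k)
    (q : Sym2 (Fin k)) :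
    edgesIn G f q + nonEdgesIn G f q = {e : Sym2 V | ¬ e.IsDiag ∧ e.map f = q}.ncard := by
  rw [← Set.ncard_inter_add_ncard_sdiff_eq_ncard {e : Sym2 V | ¬ e.IsDiag ∧ e.map f = q}
    G.edgeSet]
  congr 1
  · unfold edgesIn
    rw [← Nat.card_coe_set_eq]
    refine Nat.card_congr (Equiv.subtypeEquivRight fun e => ?_)
    constructor
    · rintro ⟨h1, h2⟩
      exact ⟨⟨G.not_isDiag_of_mem_edgeSet h1, h2⟩, h1⟩
    · rintro ⟨⟨_, h2⟩, h1⟩
      exact ⟨h1, h2⟩
  · unfold nonEdgesIn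
    rw [← Nat.card_coe_set_eq]
    refine Nat.card_congr (Equiv.subtypeEquivRight fun e => ?_)
    constructor
    · rintro ⟨⟨h1, h2⟩, h3⟩
      exact ⟨⟨h1, h3⟩, h2⟩
    · rintro ⟨⟨h1, h3⟩, h2⟩
      exact ⟨⟨h1, h2⟩, h3⟩

theorem st_swap (ρ : Equiv.Perm (Fin r)) (f : Vx r p → Fin k) {a b : Fin r}
    (hf : f (Vx.x a) = f (Vx.x b)) :
    st (gp (Equiv.swap a b * ρ)) f = st (gp ρ) f := by
  unfold st
  refine Prod.ext rfl (Prod.ext ?_ ?_)
  · funext q
    exact edgesIn_swap ρ f hf q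
  · funext q
    have h1 := nonEdgesIn_add (gp (Equiv.swap a b * ρ)) f q
    have h2 := nonEdgesIn_add (gp ρ) f q
    rw [edgesIn_swap ρ f hf] at h1
    show nonEdgesIn _ f q = nonEdgesIn _ f q
    omega

end Pool.Agent.Q210.SM
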